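import Mathlib

set_option autoImplicit false

namespace Pool.Agent.Results.MP_0edf05_co.DistGirth

open Finset SimpleGraph

/-- The average distance of `G`: the mean of `d(u,v)` over all ordered pairs of distinct vertices
(which is the same as the mean over all unordered pairs). -/
noncomputable def avgDist {V : Type} [Fintype V] (G : SimpleGraph V) : ℝ :=
  open Classical in
  (∑ p ∈ (univ : Finset V).offDiag, (G.dist p.1 p.2 : ℝ)) /
    ((Fintype.card V : ℝ) * (Fintype.card V - 1))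

/-- The bound: `n³/(4(n-1))` for even `n`, `(n²+n)/4` for odd `n`. -/
noncomputable def bound (n : ℕ) : ℝ :=
  open Classical in if Even n then (n : ℝ) ^ 3 / (4 * (n - 1)) else ((n : ℝ) ^ 2 + n) / 4

/-! ### Lipschitz functions -/

/-- `f` changes by at most one along edges. -/
def Lip {V : Type} (G : SimpleGraph V) (f : V → ℕ) : Prop := ∀ a b, G.Adj a b → f a ≤ f b + 1

lemma lip_dist {V : Type} {G : SimpleGraph V} (hc : G.Connected) {f : V → ℕ} (hf : Lip G f)
    (a b : V) : f b ≤ f a + G.dist a b := by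
  obtain ⟨p, hp⟩ := hc.exists_walk_length_eq_dist a b
  rw [← hp]
  clear hp
  induction p with
  | nil => simp
  | cons h p ih =>
    rw [Walk.length_cons]
    have := hf _ _ h.symm
    omega

lemma dist_lip {V : Type} {G : SimpleGraph V} (hc : G.Connected) (v : V) : Lip G (G.dist v) := by
  intro a b hab
  have h1 := hc.dist_triangle (u := v) (v := b) (w := a)
  have h2 : G.dist b a = 1 := dist_eq_one_iff_adj.mpr hab.symm
  omega

/-- every Lipschitz function takes an interval of values on `S` -/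
def LV {V : Type} (G : SimpleGraph V) (S : Finset V) : Prop :=
  ∀ f : V → ℕ, Lip G f → ∀ a ∈ S, ∀ b ∈ S, ∀ j, f a ≤ j → j ≤ f b → ∃ z ∈ S, f z = j

lemma LV_singleton {V : Type} (G : SimpleGraph V) (v : V) : LV G {v} := by
  intro f _ a ha b hb j h1 h2
  rw [Finset.mem_singleton] at ha hb
  subst ha
  subst hb
  exact ⟨b, Finset.mem_singleton_self _, le_antisymm h1 h2⟩

lemma LV_insert {V : Type} [DecidableEq V] (G : SimpleGraph V) (S : Finset V) (hS : LV G S)
    (v s : V) (hs : s ∈ S) (hvs : G.Adj v s) : LV G (insert v S) := by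
  intro f hf a ha b hb j h1 h2
  have e1 := hf _ _ hvs
  have e2 := hf _ _ hvs.symm
  by_cases hj : f v = j
  · exact ⟨v, Finset.mem_insert_self _ _, hj⟩
  rw [Finset.mem_insert] at ha hb
  have key : ∀ a ∈ S, ∀ b ∈ S, f a ≤ j → j ≤ f b → ∃ z ∈ insert v S, f z = j := by
    intro a ha b hb h1 h2
    obtain ⟨z, hz, hz2⟩ := hS f hf a ha b hb j h1 h2
    exact ⟨z, Finset.mem_insert_of_mem hz, hz2⟩
  rcases ha with rfl | ha <;> rcases hb with rfl | hb
  · exact absurd (le_antisymm h1 h2) hj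
  · exact key s hs b hb (by omega) h2
  · exact key a ha s hs h1 (by omega)
  · exact key a ha b hb h1 h2

/-! ### The cycle -/

lemma cyc_conn (m : ℕ) : (cycleGraph (m + 2)).Connected := cycleGraph_connected

open scoped Fin.CommRing in
lemma cyc_dist_le_aux (m : ℕ) (i : Fin (m + 2)) (k : ℕ) :
    (cycleGraph (m + 2)).dist i (i + (k : Fin (m + 2))) ≤ k := by
  induction k with
  | zero => simp
  | succ k ih =>
    have h1 := (cyc_conn m).dist_triangle (u := i) (v := i + (k : Fin (m + 2)))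
      (w := i + ((k + 1 : ℕ) : Fin (m + 2)))
    have h2 : (cycleGraph (m + 2)).Adj (i + (k : Fin (m + 2)))
        (i + ((k + 1 : ℕ) : Fin (m + 2))) := by
      rw [cycleGraph_adj]
      right
      push_cast
      ring
    have h3 := dist_eq_one_iff_adj.mpr h2
    omega

open scoped Fin.CommRing in
lemma cyc_dist_le (m : ℕ) (i j : Fin (m + 2)) :
    (cycleGraph (m + 2)).dist i j ≤ (j - i).val := by
  have h := cyc_dist_le_aux m i (j - i).val
  have e : i + (((j - i).val : ℕ) : Fin (m + 2)) = j := by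
    rw [Fin.cast_val_eq_self]
    ring
  rwa [e] at h

lemma val_neg (m : ℕ) (a : Fin (m + 2)) (ha : a ≠ 0) : (-a).val = m + 2 - a.val := by
  have h1 : 0 < a.val := Nat.pos_of_ne_zero (fun h => ha (Fin.ext h))
  have h2 := a.isLt
  rw [Fin.val_neg']
  exact Nat.mod_eq_of_lt (by omega)

open scoped Fin.CommRing in
/-- the distance function on the cycle -/
lemma cyc_dist (m : ℕ) (i j : Fin (m + 2)) :
    (cycleGraph (m + 2)).dist i j = min (j - i).val (m + 2 - (j - i).val) := by
  apply le_antisymm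
  · refine le_min (cyc_dist_le m i j) ?_
    by_cases h : j - i = 0
    · have hij : i = j := by
        have := sub_eq_zero.mp h
        exact this.symm
      rw [hij]
      simp
    · rw [← val_neg m _ h, SimpleGraph.dist_comm]
      have := cyc_dist_le m j i
      rwa [show -(j - i) = i - j by ring]
  · have hlip : Lip (cycleGraph (m + 2))
        (fun x => min (x - i).val (m + 2 - (x - i).val)) := by
      intro a b hab
      rw [cycleGraph_adj] at hab
      rcases hab with h | h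
      · have e : a - i = (b - i) + 1 := by rw [← h]; ring
        simp only [e]
        have h1 := (b - i).isLt
        rw [Fin.val_add_one]
        split_ifs with h2
        · simp
        · omega
      · have e : b - i = (a - i) + 1 := by rw [← h]; ring
        simp only [e]
        have h1 := (a - i).isLt
        rw [Fin.val_add_one]
        split_ifs with h2
        · rw [h2, Fin.val_last]
          omega
        · omega
    have := lip_dist (cyc_conn m) hlip i j
    simpa using this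

lemma sum_min (n : ℕ) : ∑ k ∈ range n, min k (n - k) = n ^ 2 / 4 := by
  induction n using Nat.strong_induction_on with
  | _ n ih =>
    rcases n with _ | _ | n
    · simp
    · simp
    · have h1 : ∑ k ∈ range (n + 2), min k (n + 2 - k) =
          ∑ k ∈ range n, (min k (n - k) + 1) + 1 := by
        rw [Finset.sum_range_succ, Finset.sum_range_succ']
        have e1 : min 0 (n + 2 - 0) = 0 := by simp
        have e2 : min (n + 1) (n + 2 - (n + 1)) = 1 := by omega
        rw [e1, e2, add_zero]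
        congr 1
        refine Finset.sum_congr rfl fun k hk => ?_
        rw [Finset.mem_range] at hk
        omega
      rw [h1, Finset.sum_add_distrib, ih n (by omega)]
      simp only [Finset.sum_const, Finset.card_range, smul_eq_mul, mul_one]
      have : (n + 1 + 1) ^ 2 = n ^ 2 + (n + 1) * 4 := by ring
      rw [this, Nat.add_mul_div_right _ _ (by norm_num)]
      ring

lemma cyc_sum (m : ℕ) (i : Fin (m + 2)) :
    ∑ j, (cycleGraph (m + 2)).dist i j = (m + 2) ^ 2 / 4 := by
  rw [← sum_min (m + 2)]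
  simp only [cyc_dist]
  rw [← Fin.sum_univ_eq_sum_range (fun k => min k (m + 2 - k)) (m + 2)]
  exact (Equiv.subRight i).sum_comp (fun x : Fin (m + 2) => min x.val (m + 2 - x.val))

lemma cyc_dist_half (m : ℕ) (i j : Fin (m + 2)) :
    (cycleGraph (m + 2)).dist i j ≤ (m + 2) / 2 := by
  rw [cyc_dist]
  omega

/-! ### The inductive step -/

lemma card_levels {V : Type} [DecidableEq V] (S : Finset V) (f : V → ℕ) (e : ℕ)
    (hlev : ∀ j ≤ e, ∃ z ∈ S, f z = j) (k : ℕ) (hk : k ≤ e) :
    k + 1 ≤ #(S.filter (fun u => f u ≤ k)) := by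
  have h1 : range (k + 1) ⊆ (S.filter (fun u => f u ≤ k)).image f := by
    intro j hj
    rw [Finset.mem_range] at hj
    obtain ⟨z, hz, hz2⟩ := hlev j (by omega)
    rw [Finset.mem_image]
    exact ⟨z, by rw [Finset.mem_filter]; exact ⟨hz, by omega⟩, hz2⟩
  have h2 := Finset.card_le_card h1
  rw [Finset.card_range] at h2
  exact h2.trans Finset.card_image_le

lemma sum_levels {V : Type} [DecidableEq V] (S : Finset V) (f : V → ℕ) (e : ℕ)
    (hlev : ∀ j ≤ e, ∃ z ∈ S, f z = j) (hmax : ∀ u ∈ S, f u ≤ e) :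
    ∑ u ∈ S, f u ≤ ∑ k ∈ range e, (#S - (k + 1)) := by
  have h1 : ∀ u ∈ S, f u = ∑ k ∈ range e, if k < f u then 1 else 0 := by
    intro u hu
    rw [← Finset.card_filter]
    have : (range e).filter (fun k => k < f u) = range (f u) := by
      ext k
      have := hmax u hu
      simp only [Finset.mem_filter, Finset.mem_range]
      omega
    rw [this, Finset.card_range]
  rw [Finset.sum_congr rfl h1, Finset.sum_comm]
  refine Finset.sum_le_sum fun k hk => ?_
  rw [Finset.mem_range] at hk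
  rw [← Finset.card_filter]
  have h2 := card_levels S f e hlev k hk.le
  have h3 := Finset.card_filter_add_card_filter_not (s := S) (fun u => f u ≤ k)
  have h4 : S.filter (fun u => k < f u) = S.filter (fun u => ¬ f u ≤ k) := by
    refine Finset.filter_congr fun u _ => ?_
    exact not_le.symm
  rw [h4]
  omega

lemma two_sum (m e : ℕ) :
    2 * ∑ k ∈ range e, ((m : ℤ) - (k + 1)) = e * (2 * m - e - 1) := by
  induction e with
  | zero => simp
  | succ e ih =>
    rw [Finset.sum_range_succ, mul_add, ih]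
    push_cast
    ring

lemma step {V : Type} [DecidableEq V] (G : SimpleGraph V) (hc : G.Connected) (S C : Finset V)
    (hCS : C ⊆ S) (hS : LV G S) (v s : V) (hv : v ∉ S) (hs : s ∈ S) (hvs : G.Adj v s)
    (g : ℕ) (hg : 3 ≤ g) (hC : #C = g) (hCd : ∀ a ∈ C, ∀ b ∈ C, G.dist a b ≤ g / 2) :
    2 * ∑ u ∈ S, (G.dist v u : ℤ) ≤
      ((#S : ℤ) - ((g - 1) / 2 : ℕ)) * ((#S : ℤ) + 1 + ((g - 1) / 2 : ℕ)) := by
  set x := (g - 1) / 2 with hx
  set f : V → ℕ := G.dist v with hf
  have hlip : Lip G f := dist_lip hc v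
  have hS' := LV_insert G S hS v s hs hvs
  set S' := insert v S with hS'def
  have hvS' : v ∈ S' := Finset.mem_insert_self _ _
  obtain ⟨u0, hu0, hmax⟩ := Finset.exists_max_image S' f ⟨v, hvS'⟩
  set e := f u0 with he
  have hfv : f v = 0 := by rw [hf]; simp
  have hlev : ∀ j ≤ e, ∃ z ∈ S', f z = j := fun j hj =>
    hS' f hlip v hvS' u0 hu0 j (by omega) hj
  have hcard : #S' = #S + 1 := Finset.card_insert_of_notMem hv
  -- the number of levels
  have hCne : C.Nonempty := by
    rw [← Finset.card_pos]; omega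
  obtain ⟨c0, hc0, hmin⟩ := Finset.exists_min_image C f hCne
  have hCim : C.image f ⊆ Finset.Icc (f c0) (f c0 + g / 2) := by
    intro j hj
    rw [Finset.mem_image] at hj
    obtain ⟨c, hcC, rfl⟩ := hj
    rw [Finset.mem_Icc]
    refine ⟨hmin c hcC, ?_⟩
    have h1 := lip_dist hc hlip c0 c
    have h2 := hCd c0 hc0 c hcC
    omega
  have hCcard : #(C.image f) ≤ g / 2 + 1 := by
    have := Finset.card_le_card hCim
    rw [Nat.card_Icc] at this
    omega
  have hlevels : e + 1 ≤ #(S' \ C) + #(C.image f) := by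
    have h1 : range (e + 1) ⊆ (S' \ C).image f ∪ C.image f := by
      intro j hj
      rw [Finset.mem_range] at hj
      obtain ⟨z, hz, hz2⟩ := hlev j (by omega)
      rw [Finset.mem_union, Finset.mem_image, Finset.mem_image]
      by_cases hzC : z ∈ C
      · right; exact ⟨z, hzC, hz2⟩
      · left; exact ⟨z, Finset.mem_sdiff.mpr ⟨hz, hzC⟩, hz2⟩
    have h2 := Finset.card_le_card h1
    rw [Finset.card_range] at h2
    have h3 := Finset.card_union_le ((S' \ C).image f) (C.image f)
    have h4 := Finset.card_image_le (s := S' \ C) (f := f)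
    omega
  have hCS' : C ⊆ S' := hCS.trans (Finset.subset_insert _ _)
  rw [Finset.card_sdiff_of_subset hCS', hC, hcard] at hlevels
  have hgS : g ≤ #S := hC ▸ Finset.card_le_card hCS
  have heS : e + x ≤ #S := by omega
  have hsum := sum_levels S' f e hlev hmax
  have hsum2 : ∑ u ∈ S', f u = ∑ u ∈ S, f u := by
    rw [hS'def, Finset.sum_insert hv, hfv, zero_add]
  have h5 : ((∑ k ∈ range e, (#S' - (k + 1)) : ℕ) : ℤ) = ∑ k ∈ range e, ((#S' : ℤ) - (k + 1)) := by
    push_cast
    refine Finset.sum_congr rfl fun k hk => ?_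
    rw [Finset.mem_range] at hk
    rw [Nat.cast_sub (by omega)]
    push_cast
    ring
  have h6 : 2 * ∑ u ∈ S, (f u : ℤ) ≤ e * (2 * (#S' : ℤ) - e - 1) := by
    rw [← two_sum #S' e, ← h5]
    have : ∑ u ∈ S, (f u : ℤ) = ((∑ u ∈ S, f u : ℕ) : ℤ) := by push_cast; rfl
    rw [this, ← hsum2]
    have : ((∑ u ∈ S', f u : ℕ) : ℤ) ≤ ((∑ k ∈ range e, (#S' - (k + 1)) : ℕ) : ℤ) := by
      exact_mod_cast hsum
    linarith
  refine h6.trans ?_
  rw [hcard]
  push_cast
  have h7 : (e : ℤ) + x ≤ #S := by exact_mod_cast heS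
  have h8 : (0 : ℤ) ≤ x := Int.natCast_nonneg _
  have h9 : (0 : ℤ) ≤ e := Int.natCast_nonneg _
  nlinarith

/-! ### Growing the set -/

lemma grow {V : Type} [Fintype V] [DecidableEq V] (G : SimpleGraph V) (hc : G.Connected)
    (C : Finset V) (g : ℕ) (hg : 3 ≤ g) (hC : #C = g) (hCLV : LV G C)
    (hCd : ∀ a ∈ C, ∀ b ∈ C, G.dist a b ≤ g / 2)
    (hCs : ∑ u ∈ C, ∑ w ∈ C, (G.dist u w : ℤ) ≤ g * (g ^ 2 / 4 : ℕ)) (n : ℕ) (hgn : g ≤ n) :
    n ≤ Fintype.card V → ∃ S : Finset V, C ⊆ S ∧ #S = n ∧ LV G S ∧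
      ∑ u ∈ S, ∑ w ∈ S, (G.dist u w : ℤ) ≤ g * (g ^ 2 / 4 : ℕ) +
        ∑ k ∈ Ico g n, ((k : ℤ) - ((g - 1) / 2 : ℕ)) * ((k : ℤ) + 1 + ((g - 1) / 2 : ℕ)) := by
  induction n, hgn using Nat.le_induction with
  | base => intro _; exact ⟨C, subset_rfl, hC, hCLV, by simpa using hCs⟩
  | succ n hgn ih =>
    intro hn
    obtain ⟨S, hCS, hSn, hSLV, hSs⟩ := ih (by omega)
    obtain ⟨c, hcC⟩ : C.Nonempty := by rw [← Finset.card_pos]; omega
    obtain ⟨y, hy⟩ : ∃ y, y ∉ S := by
      by_contra hcon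
      push Not at hcon
      have : S = univ := Finset.eq_univ_of_forall hcon
      rw [this, Finset.card_univ] at hSn
      omega
    obtain ⟨p⟩ := hc.preconnected c y
    obtain ⟨d, hd, hd1, hd2⟩ := p.exists_boundary_dart (S : Set V) (hCS hcC) (by exact_mod_cast hy)
    have hvs : G.Adj d.snd d.fst := d.adj.symm
    have hd1' : d.fst ∈ S := by exact_mod_cast hd1
    have hd2' : d.snd ∉ S := by exact_mod_cast hd2
    have hst := step G hc S C hCS hSLV d.snd d.fst hd2' hd1' hvs g hg hC hCd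
    refine ⟨insert d.snd S, hCS.trans (Finset.subset_insert _ _), ?_,
      LV_insert G S hSLV _ _ hd1' hvs, ?_⟩
    · rw [Finset.card_insert_of_notMem hd2', hSn]
    · rw [Finset.sum_insert hd2', Finset.sum_insert hd2']
      have e1 : ∀ u ∈ S, ∑ w ∈ insert d.snd S, (G.dist u w : ℤ) =
          G.dist d.snd u + ∑ w ∈ S, (G.dist u w : ℤ) := by
        intro u _
        rw [Finset.sum_insert hd2', SimpleGraph.dist_comm]
      rw [Finset.sum_congr rfl e1, Finset.sum_add_distrib, Finset.sum_Ico_succ_top hgn]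
      rw [hSn] at hst
      simp only [SimpleGraph.dist_self, Nat.cast_zero, zero_add]
      linarith

lemma closed_form (g n : ℕ) (x : ℤ) (hgn : g ≤ n) :
    3 * ∑ k ∈ Ico g n, ((k : ℤ) - x) * ((k : ℤ) + 1 + x) =
      ((n : ℤ) ^ 3 - n) - ((g : ℤ) ^ 3 - g) - 3 * (n - g) * (x ^ 2 + x) := by
  induction n, hgn using Nat.le_induction with
  | base => simp
  | succ n hgn ih =>
    rw [Finset.sum_Ico_succ_top hgn, mul_add, ih]
    push_cast
    ring

/-- the numerical inequality -/
lemma numeric (g n : ℕ) (hg : 3 ≤ g) (hgn : g < n) (W : ℤ)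
    (hW : W ≤ g * (g ^ 2 / 4 : ℕ) +
      ∑ k ∈ Ico g n, ((k : ℤ) - ((g - 1) / 2 : ℕ)) * ((k : ℤ) + 1 + ((g - 1) / 2 : ℕ))) :
    W * g < (n : ℤ) ^ 2 * (n ^ 2 / 4 : ℕ) := by
  have hcf := closed_form g n (((g - 1) / 2 : ℕ) : ℤ) hgn.le
  set T := ∑ k ∈ Ico g n, ((k : ℤ) - ((g - 1) / 2 : ℕ)) * ((k : ℤ) + 1 + ((g - 1) / 2 : ℕ))
  set x : ℤ := (((g - 1) / 2 : ℕ) : ℤ) with hx
  have h1 : (4 : ℤ) * (g ^ 2 / 4 : ℕ) ≤ (g : ℤ) ^ 2 := by
    have : 4 * (g ^ 2 / 4) ≤ g ^ 2 := Nat.mul_div_le _ _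
    exact_mod_cast this
  have h2 : (n : ℤ) ^ 2 - 1 ≤ 4 * (n ^ 2 / 4 : ℕ) := by
    have : n ^ 2 ≤ 4 * (n ^ 2 / 4) + 1 := by
      rcases Nat.even_or_odd' n with ⟨k, rfl | rfl⟩
      · have : (2 * k) ^ 2 = 4 * k ^ 2 := by ring
        rw [this]; omega
      · have : (2 * k + 1) ^ 2 = 4 * (k ^ 2 + k) + 1 := by ring
        rw [this]; omega
    have h3 : ((n ^ 2 : ℕ) : ℤ) ≤ ((4 * (n ^ 2 / 4) + 1 : ℕ) : ℤ) := by exact_mod_cast this
    rw [Nat.cast_add, Nat.cast_mul, Nat.cast_pow] at h3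
    simp only [Nat.cast_ofNat, Nat.cast_one] at h3
    linarith
  have h3 : (g : ℤ) ^ 2 - 2 * g ≤ 4 * (x ^ 2 + x) := by
    have : (g : ℤ) - 2 ≤ 2 * x := by
      rw [hx]
      have : g ≤ 2 * ((g - 1) / 2) + 2 := by omega
      have h4 : (g : ℤ) ≤ ((2 * ((g - 1) / 2) + 2 : ℕ) : ℤ) := by exact_mod_cast this
      push_cast at h4 ⊢
      linarith
    have hg' : (3 : ℤ) ≤ g := by exact_mod_cast hg
    nlinarith
  obtain ⟨t, rfl⟩ : ∃ t, n = g + t := ⟨n - g, by omega⟩
  have ht : 1 ≤ t := by omega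
  have hg' : (3 : ℤ) ≤ g := by exact_mod_cast hg
  have ht' : (1 : ℤ) ≤ t := by exact_mod_cast ht
  have ecast : ((g + t : ℕ) : ℤ) = (g : ℤ) + (t : ℤ) := by push_cast; rfl
  rw [ecast] at hcf h2 ⊢
  set G : ℤ := (g : ℤ)
  set t' : ℤ := (t : ℤ)
  have hgpos : 0 < G := by linarith
  have ht'pos : 0 < t' := by linarith
  set h : ℤ := ((g ^ 2 / 4 : ℕ) : ℤ)
  -- 12 * W * g
  have a1 : 12 * (W * G) ≤ 3 * G ^ 2 * (4 * h) + 4 * G * (3 * T) := by
    have : W * G ≤ (G * h + T) * G := mul_le_mul_of_nonneg_right hW hgpos.le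
    nlinarith
  have a2 : 3 * G ^ 2 * (4 * h) ≤ 3 * G ^ 2 * G ^ 2 :=
    mul_le_mul_of_nonneg_left h1 (by positivity)
  have a3 : 4 * G * (3 * T) ≤ 4 * G * (((G + t') ^ 3 - (G + t')) - (G ^ 3 - G)) -
      3 * G * t' * (G ^ 2 - 2 * G) := by
    rw [hcf]
    have : 3 * G * t' * (G ^ 2 - 2 * G) ≤ 3 * G * t' * (4 * (x ^ 2 + x)) :=
      mul_le_mul_of_nonneg_left h3 (by positivity)
    nlinarith
  have a4 : 3 * (G + t') ^ 2 * ((G + t') ^ 2 - 1) ≤
      3 * (G + t') ^ 2 * (4 * (((g + t) ^ 2 / 4 : ℕ) : ℤ)) := by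
    refine mul_le_mul_of_nonneg_left ?_ (by positivity)
    linarith
  have a5 : 3 * G ^ 2 * G ^ 2 + (4 * G * (((G + t') ^ 3 - (G + t')) - (G ^ 3 - G)) -
      3 * G * t' * (G ^ 2 - 2 * G)) < 3 * (G + t') ^ 2 * ((G + t') ^ 2 - 1) := by
    have e : 3 * (G + t') ^ 2 * ((G + t') ^ 2 - 1) - (3 * G ^ 2 * G ^ 2 +
      (4 * G * (((G + t') ^ 3 - (G + t')) - (G ^ 3 - G)) - 3 * G * t' * (G ^ 2 - 2 * G))) =
      3 * G ^ 3 * t' + 6 * G ^ 2 * t' ^ 2 + 8 * G * t' ^ 3 + 3 * t' ^ 4 - 3 * G ^ 2 - 2 * G * t'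
        - 3 * t' ^ 2 - 6 * G ^ 2 * t' := by ring
    have b1 : 3 * G ^ 3 * t' ≥ 9 * G ^ 2 * t' := by
      have : 0 ≤ 3 * G ^ 2 * t' * (G - 3) := by
        apply mul_nonneg (by positivity) (by linarith)
      nlinarith
    have b2 : 3 * G ^ 2 * t' ≥ 3 * G ^ 2 := by
      have : 0 ≤ 3 * G ^ 2 * (t' - 1) := mul_nonneg (by positivity) (by linarith)
      nlinarith
    have b3 : 6 * G ^ 2 * t' ^ 2 ≥ 2 * G * t' := by
      have : 0 ≤ 2 * G * t' * (3 * G * t' - 1) := by
        apply mul_nonneg (by positivity)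
        nlinarith
      nlinarith
    have b4 : 3 * t' ^ 4 ≥ 3 * t' ^ 2 := by
      have : 0 ≤ 3 * t' ^ 2 * (t' ^ 2 - 1) := by
        apply mul_nonneg (by positivity)
        nlinarith
      nlinarith
    have b5 : 0 < 8 * G * t' ^ 3 := by positivity
    linarith
  have a6 : 12 * (W * G) < 12 * ((G + t') ^ 2 * (((g + t) ^ 2 / 4 : ℕ) : ℤ)) := by
    linarith
  have := lt_of_mul_lt_mul_left a6 (by norm_num : (0 : ℤ) ≤ 12)
  simpa using this

/-! ### Homomorphisms and distances -/

lemma dist_hom_le {V W : Type} {G : SimpleGraph V} {H : SimpleGraph W} (hH : H.Connected)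
    (φ : H →g G) (a b : W) : G.dist (φ a) (φ b) ≤ H.dist a b := by
  obtain ⟨p, hp⟩ := hH.exists_walk_length_eq_dist a b
  rw [← hp, ← Walk.length_map φ p]
  exact SimpleGraph.dist_le _

lemma dist_iso {V W : Type} {G : SimpleGraph V} {H : SimpleGraph W} (hG : G.Connected)
    (hH : H.Connected) (φ : H ≃g G) (a b : W) : G.dist (φ a) (φ b) = H.dist a b := by
  apply le_antisymm
  · exact dist_hom_le hH φ.toHom a b
  · have := dist_hom_le hG φ.symm.toHom (φ a) (φ b)
    simpa using this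

lemma copy_cycle {V : Type} (G : SimpleGraph V) (h : ¬ G.IsAcyclic) :
    3 ≤ G.girth ∧ Nonempty (Copy (cycleGraph G.girth) G) := by
  have h3 := three_le_girth h
  refine ⟨h3, ?_⟩
  obtain ⟨a, w, hw, hl⟩ := exists_girth_eq_length.mpr h
  exact (cycleGraph_isContained_iff (by omega)).mpr ⟨a, w, hw, hl.symm⟩

section image

variable {V : Type} [DecidableEq V] (G : SimpleGraph V) (m : ℕ)
  (φ : Copy (cycleGraph (m + 2)) G)

lemma image_card : #(univ.image φ.toHom) = m + 2 := by
  rw [Finset.card_image_of_injective _ φ.injective, Finset.card_univ, Fintype.card_fin]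

open scoped Fin.CommRing in
lemma image_LV : LV G (univ.image φ.toHom) := by
  have key : ∀ k : ℕ, k < m + 2 →
      LV G ((univ.filter (fun i : Fin (m + 2) => i.val ≤ k)).image φ.toHom) := by
    intro k
    induction k with
    | zero =>
      intro _
      have : univ.filter (fun i : Fin (m + 2) => i.val ≤ 0) = {0} := by
        ext i
        simp only [Finset.mem_filter, Finset.mem_univ, true_and, Finset.mem_singleton, Fin.ext_iff,
          Fin.val_zero]
        omega
      rw [this, Finset.image_singleton]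
      exact LV_singleton G _
    | succ k ih =>
      intro hk
      have h1 := ih (by omega)
      have : univ.filter (fun i : Fin (m + 2) => i.val ≤ k + 1) =
          insert ⟨k + 1, hk⟩ (univ.filter (fun i : Fin (m + 2) => i.val ≤ k)) := by
        ext i
        simp only [Finset.mem_filter, Finset.mem_univ, true_and, Finset.mem_insert, Fin.ext_iff]
        omega
      rw [this, Finset.image_insert]
      refine LV_insert G _ h1 _ (φ.toHom ⟨k, by omega⟩) ?_ ?_
      · rw [Finset.mem_image]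
        exact ⟨⟨k, by omega⟩, by simp, rfl⟩
      · apply φ.toHom.map_adj
        rw [cycleGraph_adj]
        left
        ext
        rw [Fin.sub_val_of_le (by simp [Fin.le_def])]
        simp
  have h := key (m + 1) (by omega)
  have : univ.filter (fun i : Fin (m + 2) => i.val ≤ m + 1) = univ := by
    ext i
    have := i.isLt
    simp only [Finset.mem_filter, Finset.mem_univ, true_and, iff_true]
    omega
  rwa [this] at h

lemma image_dist : ∀ a ∈ univ.image φ.toHom, ∀ b ∈ univ.image φ.toHom,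
    G.dist a b ≤ (m + 2) / 2 := by
  intro a ha b hb
  rw [Finset.mem_image] at ha hb
  obtain ⟨i, -, rfl⟩ := ha
  obtain ⟨j, -, rfl⟩ := hb
  exact (dist_hom_le (cyc_conn m) φ.toHom i j).trans (cyc_dist_half m i j)

lemma image_sum : ∑ u ∈ univ.image φ.toHom, ∑ w ∈ univ.image φ.toHom, (G.dist u w : ℤ) ≤
    ((m + 2 : ℕ) : ℤ) * ((m + 2) ^ 2 / 4 : ℕ) := by
  rw [Finset.sum_image (fun _ _ _ _ h => φ.injective h)]
  have h : ∀ i ∈ (univ : Finset (Fin (m + 2))),
      ∑ w ∈ univ.image φ.toHom, (G.dist (φ.toHom i) w : ℤ) ≤ (((m + 2) ^ 2 / 4 : ℕ) : ℤ) := by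
    intro i _
    rw [Finset.sum_image (fun _ _ _ _ h => φ.injective h), ← cyc_sum m i]
    push_cast
    refine Finset.sum_le_sum fun j _ => ?_
    exact_mod_cast dist_hom_le (cyc_conn m) φ.toHom i j
  refine (Finset.sum_le_sum h).trans ?_
  rw [Finset.sum_const, Finset.card_univ, Fintype.card_fin, nsmul_eq_mul]

end image

/-- the girth of a cycle -/
lemma girth_cycle (n : ℕ) (hn : 3 ≤ n) : (cycleGraph n).girth = n := by
  classical
  obtain ⟨k, rfl⟩ : ∃ k, n = k + 3 := ⟨n - 3, by omega⟩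
  have hna : ¬ (cycleGraph (k + 3)).IsAcyclic := fun h => h _ cycleGraph.isCycle_cycle
  obtain ⟨h3, ⟨φ⟩⟩ := copy_cycle _ hna
  set g := (cycleGraph (k + 3)).girth with hg
  obtain ⟨m, hm⟩ : ∃ m, g = m + 3 := ⟨g - 3, by omega⟩
  rw [hm] at φ
  have hle : m + 3 ≤ k + 3 := by
    have := Fintype.card_le_of_injective _ φ.injective
    simpa using this
  by_contra hne
  have hlt : m + 3 < k + 3 := by omega
  -- a vertex outside the image
  obtain ⟨y, hy⟩ : ∃ y, y ∉ univ.image φ.toHom := by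
    by_contra hcon
    push Not at hcon
    have h1 : univ.image φ.toHom = univ := Finset.eq_univ_of_forall hcon
    have h2 : #(univ.image φ.toHom) = m + 3 := image_card _ (m + 1) φ
    rw [h1, Finset.card_univ, Fintype.card_fin] at h2
    omega
  obtain ⟨p⟩ := (cycleGraph_connected (n := k + 2)).preconnected (φ.toHom 0) y
  obtain ⟨d, -, hd1, hd2⟩ := p.exists_boundary_dart ((univ.image φ.toHom : Finset _) : Set _)
    (by simp) (by exact_mod_cast hy)
  have hd1' : d.fst ∈ univ.image φ.toHom := by exact_mod_cast hd1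
  have hd2' : d.snd ∉ univ.image φ.toHom := by exact_mod_cast hd2
  rw [Finset.mem_image] at hd1'
  obtain ⟨i, -, hi⟩ := hd1'
  have hdeg : (cycleGraph (m + 3)).degree i = 2 := cycleGraph_degree_three_le
  have hdeg2 : (cycleGraph (k + 3)).degree d.fst = 2 := cycleGraph_degree_three_le
  have hsub : insert d.snd (((cycleGraph (m + 3)).neighborFinset i).image φ.toHom) ⊆
      (cycleGraph (k + 3)).neighborFinset d.fst := by
    intro z hz
    rw [Finset.mem_insert, Finset.mem_image] at hz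
    rw [mem_neighborFinset]
    rcases hz with rfl | ⟨j, hj, rfl⟩
    · exact d.adj
    · rw [mem_neighborFinset] at hj
      rw [← hi]
      exact φ.toHom.map_adj hj
  have h4 := Finset.card_le_card hsub
  rw [card_neighborFinset_eq_degree, hdeg2, Finset.card_insert_of_notMem,
    Finset.card_image_of_injective _ φ.injective, card_neighborFinset_eq_degree, hdeg] at h4
  · omega
  · intro h
    rw [Finset.mem_image] at h
    obtain ⟨j, -, hj⟩ := h
    exact hd2' (by rw [← hj]; exact Finset.mem_image_of_mem _ (Finset.mem_univ _))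

/-- a graph whose girth is its number of vertices is a cycle -/
lemma iso_of_girth {V : Type} [Fintype V] (G : SimpleGraph V) (m : ℕ)
    (hgirth : G.girth = m + 3) (hcard : Fintype.card V = m + 3)
    (φ : Copy (cycleGraph (m + 3)) G) : Nonempty (G ≃g cycleGraph (m + 3)) := by
  classical
  have hbij : Function.Bijective φ.toHom := by
    rw [Fintype.bijective_iff_injective_and_card]
    exact ⟨φ.injective, by rw [hcard, Fintype.card_fin]⟩
  refine ⟨(SimpleGraph.Iso.symm ⟨Equiv.ofBijective φ.toHom hbij, ?_⟩)⟩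
  intro i j
  constructor
  · intro hij
    change G.Adj (φ.toHom i) (φ.toHom j) at hij
    by_contra hn
    obtain ⟨p, hpath, hp⟩ := (cyc_conn (m + 1)).exists_path_of_dist i j
    have hd := cyc_dist_half (m + 1) i j
    have hpath' : (p.map φ.toHom).IsPath := Walk.map_isPath_of_injective φ.injective hpath
    have hq : (Walk.cons hij Walk.nil).IsPath := by
      simp only [Walk.cons_isPath_iff, Walk.IsPath.nil, Walk.support_nil, List.mem_singleton,
        true_and]
      exact hij.ne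
    have hne : p.map φ.toHom ≠ Walk.cons hij Walk.nil := by
      intro h
      have h2 := congrArg Walk.length h
      rw [Walk.length_map, Walk.length_cons, Walk.length_nil, hp] at h2
      exact hn (dist_eq_one_iff_adj.mp h2)
    obtain ⟨w, -, -, c, hc, hl⟩ := hpath'.exists_isCycle_length_le_add_of_ne hq hne
    have h5 := girth_le_length hc
    rw [Walk.length_map, Walk.length_cons, Walk.length_nil, hp] at hl
    omega
  · intro h
    exact φ.toHom.map_adj h

lemma avg_eq {V : Type} [Fintype V] (G : SimpleGraph V) :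
    avgDist G = ((∑ u, ∑ w, (G.dist u w : ℤ) : ℤ) : ℝ) /
      ((Fintype.card V : ℝ) * (Fintype.card V - 1)) := by
  classical
  unfold avgDist
  congr 1
  push_cast
  rw [← Finset.sum_product', Finset.univ_product_univ]
  have h := Finset.sum_subset (Finset.subset_univ ((univ : Finset V).offDiag))
    (f := fun p : V × V => (G.dist p.1 p.2 : ℝ)) (by
      intro p _ hp
      simp only [Finset.mem_offDiag, Finset.mem_univ, true_and, not_not] at hp
      simp [hp])
  convert h using 2

lemma bound_eq (n : ℕ) (hn : 3 ≤ n) :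
    bound n = (((n : ℤ) ^ 2 * (n ^ 2 / 4 : ℕ) : ℤ) : ℝ) / ((n : ℝ) * (n - 1)) := by
  have h1 : (3 : ℝ) ≤ n := by exact_mod_cast hn
  have h2 : (n : ℝ) ≠ 0 := by positivity
  have h3 : (n : ℝ) - 1 ≠ 0 := by linarith
  unfold bound
  split_ifs with h
  · obtain ⟨k, rfl⟩ := h
    have e : (k + k) ^ 2 / 4 = k ^ 2 := by
      have : (k + k) ^ 2 = 4 * k ^ 2 := by ring
      rw [this]; omega
    rw [e]
    push_cast at *
    field_simp
    ring
  · rw [Nat.not_even_iff_odd] at h
    obtain ⟨k, rfl⟩ := h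
    have e : (2 * k + 1) ^ 2 / 4 = k ^ 2 + k := by
      have : (2 * k + 1) ^ 2 = 4 * (k ^ 2 + k) + 1 := by ring
      rw [this]; omega
    rw [e]
    push_cast at *
    field_simp
    ring

lemma cycle_total (m : ℕ) : ∑ u, ∑ w, ((cycleGraph (m + 2)).dist u w : ℤ) =
    ((m + 2 : ℕ) : ℤ) * ((m + 2) ^ 2 / 4 : ℕ) := by
  have h : ∀ u ∈ (univ : Finset (Fin (m + 2))), ∑ w, ((cycleGraph (m + 2)).dist u w : ℤ) =
      (((m + 2) ^ 2 / 4 : ℕ) : ℤ) := by
    intro u _
    rw [← cyc_sum m u]
    push_cast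
    rfl
  rw [Finset.sum_congr rfl h, Finset.sum_const, Finset.card_univ, Fintype.card_fin, nsmul_eq_mul]

/-- For every connected graph `G` with a cycle, `l̄(G) · g(G) ≤ bound n`, with equality exactly
when `G` is the cycle `C_n`. -/
theorem result {V : Type} [Fintype V] (G : SimpleGraph V) (hc : G.Connected)
    (hcyc : ¬ G.IsAcyclic) :
    avgDist G * G.girth ≤ bound (Fintype.card V) ∧
    (avgDist G * G.girth = bound (Fintype.card V) ↔
      Nonempty (G ≃g cycleGraph (Fintype.card V))) := by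
  classical
  obtain ⟨h3, ⟨φ⟩⟩ := copy_cycle G hcyc
  set g := G.girth with hg
  obtain ⟨m, hm⟩ : ∃ m, g = m + 3 := ⟨g - 3, by omega⟩
  set n := Fintype.card V with hn
  rw [hm] at φ
  have hgn : m + 3 ≤ n := by
    have := Fintype.card_le_of_injective _ φ.injective
    simpa using this
  have hn3 : 3 ≤ n := by omega
  have hn3' : (3 : ℝ) ≤ n := by exact_mod_cast hn3
  have hpos : (0 : ℝ) < (n : ℝ) * (n - 1) := by
    apply mul_pos <;> linarith
  obtain ⟨S, -, hSn, -, hSs⟩ := grow G hc (univ.image φ.toHom) (m + 3) (by omega)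
    (image_card G (m + 1) φ) (image_LV G (m + 1) φ) (image_dist G (m + 1) φ)
    (image_sum G (m + 1) φ) n hgn le_rfl
  have hSuniv : S = univ := by
    apply Finset.eq_univ_of_card
    rw [hSn]
  rw [hSuniv] at hSs
  rw [avg_eq, bound_eq _ hn3, div_mul_eq_mul_div, ← hn]
  rcases lt_or_eq_of_le hgn with hlt | heq
  · have hnum := numeric (m + 3) n (by omega) hlt _ hSs
    have hlt' : ((∑ u, ∑ w, (G.dist u w : ℤ) : ℤ) : ℝ) * (g : ℝ) <
        (((n : ℤ) ^ 2 * (n ^ 2 / 4 : ℕ) : ℤ) : ℝ) := by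
      rw [hm]
      exact_mod_cast hnum
    have hlt'' := div_lt_div_of_pos_right hlt' hpos
    refine ⟨hlt''.le, ⟨fun h => absurd h hlt''.ne, ?_⟩⟩
    rintro ⟨ψ⟩
    exfalso
    have h1 := ψ.girth_eq
    rw [girth_cycle n hn3, ← hg, hm] at h1
    omega
  · have hiso := iso_of_girth G m (hg.symm.trans hm) (hn.symm.trans heq.symm) φ
    obtain ⟨ψ⟩ := hiso
    have htot : ∑ u, ∑ w, (G.dist u w : ℤ) = ((m + 3 : ℕ) : ℤ) * ((m + 3) ^ 2 / 4 : ℕ) := by
      rw [← cycle_total (m + 1)]
      rw [← ψ.symm.toEquiv.sum_comp]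
      refine Finset.sum_congr rfl fun i _ => ?_
      rw [← ψ.symm.toEquiv.sum_comp]
      refine Finset.sum_congr rfl fun j _ => ?_
      have := dist_iso hc (cyc_conn (m + 1)) ψ.symm i j
      exact_mod_cast this
    have hEq : ((∑ u, ∑ w, (G.dist u w : ℤ) : ℤ) : ℝ) * (g : ℝ) =
        (((n : ℤ) ^ 2 * (n ^ 2 / 4 : ℕ) : ℤ) : ℝ) := by
      rw [htot, hm, ← heq]
      push_cast
      ring
    rw [hEq]
    refine ⟨le_rfl, ⟨fun _ => ?_, fun _ => rfl⟩⟩
    rw [← heq]
    exact ⟨ψ⟩

end Pool.Agent.Results.MP_0edf05_co.DistGirth
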